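import Mathlib
import Pool.Agent.L5helper35.Imb

/-!
# Graphicity of the edge-imbalance multiset

If every edge of a finite simple graph `G` joins two vertices of different degrees, then the multiset of the
imbalances `|deg u - deg v|` of the edges `uv` is the degree multiset of a simple graph on `|E(G)|` vertices.

Proof. By the theorem of Erdős and Gallai it is enough to show for every nonempty set `S` of `k` edges that the
sum of the imbalances of `S` is at most `k (k - 1)` plus the sum of `min (imb e) k` over the other edges (the sum
of all imbalances is even, as it is congruent to the sum of the squares of the degrees). Let `d` be the largest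
degree of an endpoint of larger degree of an edge of `S`, attained at `u`. The left side is at most `k (d - 1)`.
If `d ≤ k` we are done. Otherwise consider the neighbours `w` of `u` by edges outside `S`. If `uw` has imbalance
at least `k`, it contributes `k` to the right side. If it has imbalance `δ < k`, it contributes `δ`, and
`deg w ≥ d - δ`; the edges at these `w` other than `uw` and outside `S` contribute at least `1` each. Counting
them gives a contribution of at least `k (d - k)` altogether.
-/

set_option autoImplicit false

namespace Pool.Agent.Results.MP_440a65_co.GraphicImbalances

open Classical

/-- The imbalance `|deg u - deg v|` of the edge `uv`. -/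
noncomputable def imbalance {V : Type*} [Fintype V] (G : SimpleGraph V) : Sym2 V → ℕ :=
  Sym2.lift ⟨fun u v => ((G.degree u : ℤ) - G.degree v).natAbs, fun u v => by
    show ((G.degree u : ℤ) - G.degree v).natAbs = ((G.degree v : ℤ) - G.degree u).natAbs
    omega⟩

/-- The multiset of the imbalances of the edges of `G`. -/
noncomputable def imbalances {V : Type*} [Fintype V] (G : SimpleGraph V) : Multiset ℕ :=
  G.edgeFinset.val.map (imbalance G)

/-- A multiset of natural numbers is graphic if it is the degree multiset of a simple graph. -/
def Graphic (M : Multiset ℕ) : Prop :=
  ∃ (n : ℕ) (H : SimpleGraph (Fin n)),
    (Finset.univ : Finset (Fin n)).val.map (fun v => H.degree v) = M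

/-- If all edges of a finite simple graph have positive imbalance, then the multiset of the
imbalances is graphic. -/
theorem result {V : Type*} [Fintype V] (G : SimpleGraph V)
    (h : ∀ e ∈ G.edgeSet, 0 < imbalance G e) : Graphic (imbalances G) := by
  obtain ⟨H, hH⟩ := Pool.Agent.L5helper35.Imb.imb_graphic (G := G) (fun e he => h e (by simpa using he))
  exact ⟨_, H, hH⟩

end Pool.Agent.Results.MP_440a65_co.GraphicImbalances
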